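import Pool.Agent.MP_542436_nt.H61.Base

set_option autoImplicit false

namespace Pool.Agent.MP_542436_nt.H61

open Finset Polynomial Pool.Agent.MP_542436_nt.Abc

theorem sep_lin {a b c d : ℚ} (ha : a ≠ 0) (hd : d ≠ 0) {p : ℕ} (hp : 1 ≤ p) :
    (C a + C b * (C c + C d * X) ^ p : ℚ[X]).Separable := by
  obtain ⟨q, rfl⟩ : ∃ q, p = q + 1 := ⟨p - 1, by omega⟩
  have hq : ((q : ℚ) + 1) ≠ 0 := by positivity
  have hder : derivative (C a + C b * (C c + C d * X) ^ (q + 1) : ℚ[X]) =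
      C b * (C ((q : ℚ) + 1) * (C c + C d * X) ^ q * C d) := by
    rw [derivative_add, derivative_C, zero_add, derivative_C_mul, derivative_pow_succ]
    simp
  rw [separable_def, hder]
  refine ⟨C a⁻¹, -(C (a⁻¹ * (((q : ℚ) + 1) * d)⁻¹) * (C c + C d * X)), ?_⟩
  have e1 : (C a⁻¹ : ℚ[X]) * C a = 1 := by rw [← C_mul, inv_mul_cancel₀ ha, C_1]
  have e2 : (C (a⁻¹ * (((q : ℚ) + 1) * d)⁻¹) : ℚ[X]) * (C ((q : ℚ) + 1) * C d) = C a⁻¹ := by
    rw [← C_mul, ← C_mul, mul_assoc, inv_mul_cancel₀ (mul_ne_zero hq hd), mul_one]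
  linear_combination e1 - C b * (C c + C d * X) ^ (q + 1) * e2

theorem deg_lin {a b c d : ℤ} (hb : b ≠ 0) (hd : d ≠ 0) (p : ℕ) :
    (C a + C b * (C c + C d * X) ^ p : ℤ[X]).natDegree = p := by
  rw [natDegree_C_add, natDegree_C_mul hb, natDegree_pow, natDegree_C_add, natDegree_C_mul_X _ hd,
    mul_one]

theorem bcore (hR : RootStmt) {ι : Type} (S : Finset ι) (p ρ : ℕ) (hp1 : 1 ≤ p) (hp6 : p ≤ 6)
    (hρ2 : 2 ≤ ρ) (hρ6 : ρ ≤ 6) (Y Z : ι → ℕ) (A B w cap : ℕ) (ej el ek : ℤ)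
    (hej : ej = 1 ∨ ej = -1) (hel : el = 1 ∨ el = -1) (hek : ek = 1 ∨ ek = -1)
    (hA : 0 < A) (hB : 0 < B) (hw : 0 < w) (hwc : w ≤ cap) (hZ0 : ∀ u ∈ S, 0 < Z u)
    (hZc : ∀ u ∈ S, Z u ≤ cap)
    (heq : ∀ u ∈ S, ej * ((Y u ^ p * B : ℕ) : ℤ) + el * (A : ℤ) + ek * ((Z u ^ ρ * w : ℕ) : ℤ) = 0)
    (c2 : ∀ u ∈ S, Nat.Coprime (Y u ^ p * B) (Z u ^ ρ * w))
    (hinj : ∀ u ∈ S, ∀ v ∈ S, Y u = Y v → Z u = Z v → u = v)
    (Q T : ℝ) (hQ : 0 ≤ Q) (hT : 1 ≤ T) (hdet : DetB cap Q)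
    (hrange : ∀ u ∈ S, ∀ v ∈ S, |(Y u : ℝ) - Y v| ≤ T * w) :
    (S.card : ℝ) ≤ Q * T ^ ((1 : ℝ) / ρ) * ((w.divisors.card ^ 4 : ℕ) : ℝ) := by
  classical
  rcases S.eq_empty_or_nonempty with rfl | ⟨u0, hu0⟩
  · simp only [card_empty, Nat.cast_zero]
    positivity
  have hp0 : p ≠ 0 := by omega
  have hej0 : ej ≠ 0 := by rcases hej with rfl | rfl <;> norm_num
  have hel0 : el ≠ 0 := by rcases hel with rfl | rfl <;> norm_num
  have hek0 : ek ≠ 0 := by rcases hek with rfl | rfl <;> norm_num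
  have hw0 : (w : ℤ) ≠ 0 := by exact_mod_cast hw.ne'
  have dY : ∀ u, Y u ∣ Y u ^ p * B := fun u => (dvd_pow_self _ hp0).mul_right _
  have dw : ∀ u, w ∣ Z u ^ ρ * w := fun u => Dvd.intro_left _ rfl
  have hBw : Nat.Coprime B w :=
    Nat.Coprime.coprime_dvd_left (Dvd.intro_left _ rfl) ((c2 u0 hu0).coprime_dvd_right (dw u0))
  obtain ⟨Zs, hZ, hZs⟩ := hR w p (ej * B) (-(el * A)) hw hp1 hp6 (cop_sign hej hBw)
  have hcov : ∀ u ∈ S, ∃ z ∈ Zs, (w : ℤ) ∣ (Y u : ℤ) - z * 1 := by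
    intro u hu
    refine hZs _ _ (Nat.isCoprime_iff_coprime.2 ?_) isCoprime_one_left ?_
    · exact Nat.Coprime.coprime_dvd_left (dY u) ((c2 u hu).coprime_dvd_right (dw u))
    · have h := heq u hu
      push_cast at h
      exact ⟨-(ek * Z u ^ ρ), by linear_combination h⟩
  have hmain := card_le_cover S Zs (fun u z => (w : ℤ) ∣ (Y u : ℤ) - z * 1) hcov
    (Q * T ^ ((1 : ℝ) / ρ)) ?_
  · refine hmain.trans (mul_le_mul_of_nonneg_left ?_ (by positivity))
    exact_mod_cast hZ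
  intro z _
  rcases (S.filter fun u => (w : ℤ) ∣ (Y u : ℤ) - z * 1).eq_empty_or_nonempty with h0 | ⟨v0, hv0⟩
  · rw [h0]
    simp only [card_empty, Nat.cast_zero]
    positivity
  set P := S.filter fun u => (w : ℤ) ∣ (Y u : ℤ) - z * 1 with hP
  have hPS : ∀ u ∈ P, u ∈ S := fun u hu => (mem_filter.1 hu).1
  let t : ι → ℤ := fun u => ((Y u : ℤ) - Y v0) / w
  have ht : ∀ u ∈ P, (Y u : ℤ) = Y v0 + w * t u := by
    intro u hu
    have h1 : (w : ℤ) ∣ (Y u : ℤ) - Y v0 := by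
      have h := (mem_filter.1 hu).2.sub (mem_filter.1 hv0).2
      rwa [show (Y u : ℤ) - z * 1 - (Y v0 - z * 1) = Y u - Y v0 by ring] at h
    have h2 := Int.mul_ediv_cancel' h1
    show (Y u : ℤ) = Y v0 + w * (((Y u : ℤ) - Y v0) / w)
    linarith
  have hti : Set.InjOn t P := by
    intro u hu v hv huv
    have hu' : u ∈ P := hu
    have hv' : v ∈ P := hv
    have eY : Y u = Y v := by
      have h1 := ht u hu'
      rw [huv, ← ht v hv'] at h1
      exact_mod_cast h1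
    refine hinj u (hPS u hu') v (hPS v hv') eY ?_
    have h2 := heq u (hPS u hu')
    have h3 := heq v (hPS v hv')
    rw [eY] at h2
    have h4 : ek * ((Z u ^ ρ * w : ℕ) : ℤ) = ek * ((Z v ^ ρ * w : ℕ) : ℤ) := by linarith
    have h5 : Z u ^ ρ * w = Z v ^ ρ * w := by exact_mod_cast mul_left_cancel₀ hek0 h4
    exact Nat.pow_left_injective (by omega) (Nat.eq_of_mul_eq_mul_right hw h5)
  rw [← card_image_of_injOn hti]
  have hb0 : ej * (B : ℤ) ≠ 0 := mul_ne_zero hej0 (by exact_mod_cast hB.ne')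
  have ha0 : el * (A : ℤ) ≠ 0 := mul_ne_zero hel0 (by exact_mod_cast hA.ne')
  refine hdet ρ (C (el * A) + C (ej * B) * (C (Y v0 : ℤ) + C (w : ℤ) * X) ^ p) (-(ek * w)) T _ hρ2
    hρ6 (by rw [deg_lin hb0 hw0]; exact hp1) (by rw [deg_lin hb0 hw0]; exact hp6) ?_
    (neg_ne_zero.2 (mul_ne_zero hek0 hw0)) ?_ hT ?_
  · rw [Polynomial.map_add, Polynomial.map_mul, Polynomial.map_pow, Polynomial.map_add,
      Polynomial.map_mul, map_C, map_C, map_C, map_C, map_X]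
    refine sep_lin ?_ ?_ hp1
    · exact (map_ne_zero_iff _ (RingHom.injective_int _)).2 ha0
    · exact (map_ne_zero_iff _ (RingHom.injective_int _)).2 hw0
  · have h1 : (w : ℤ) ≤ cap := by exact_mod_cast hwc
    rcases hek with rfl | rfl <;> simpa using h1
  · intro x hx
    obtain ⟨u, hu, rfl⟩ := mem_image.1 hx
    refine ⟨?_, Z u, hZ0 u (hPS u hu), hZc u (hPS u hu), ?_⟩
    · have h1 := hrange u (hPS u hu) v0 (hPS v0 hv0)
      have h2 : (Y u : ℝ) = Y v0 + w * (t u : ℝ) := by exact_mod_cast ht u hu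
      have hw' : (0 : ℝ) < w := by exact_mod_cast hw
      rw [h2, add_sub_cancel_left, abs_mul, abs_of_pos hw', mul_comm] at h1
      exact le_of_mul_le_mul_right h1 hw'
    · have h1 := heq u (hPS u hu)
      push_cast at h1
      simp only [eval_add, eval_mul, eval_C, eval_pow, eval_X]
      rw [← ht u hu]
      linear_combination h1

theorem bS (hR : RootStmt) : BStmt := by
  classical
  intro k j p ρ S e r s L E cap hjk hp1 hp6 hρ2 hρ6 h
  obtain ⟨l, hjl, hlk⟩ : ∃ l : Fin 3, j ≠ l ∧ l ≠ k :=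
    (by decide : ∀ j k : Fin 3, ∃ l : Fin 3, j ≠ l ∧ l ≠ k) j k
  have hE := h.hE
  have hp : (1 : ℝ) ≤ p := by exact_mod_cast hp1
  have hp0 : (0 : ℝ) < p := by linarith
  have hρ : (2 : ℝ) ≤ ρ := by exact_mod_cast hρ2
  have nj : ∀ u : Fin 3 → Fin 2 → ℕ, nm (fun l g => if l = j ∧ g = 0 then p else
      if l = k ∧ g = 0 then ρ else 1) u j = u j 0 ^ p * u j 1 := by
    intro u
    simp [nm, Fin.prod_univ_two]
  have nl : ∀ u : Fin 3 → Fin 2 → ℕ, nm (fun l g => if l = j ∧ g = 0 then p else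
      if l = k ∧ g = 0 then ρ else 1) u l = u l 0 * u l 1 := by
    intro u
    simp [nm, Fin.prod_univ_two, hlk, hjl.symm]
  have nk : ∀ u : Fin 3 → Fin 2 → ℕ, nm (fun l g => if l = j ∧ g = 0 then p else
      if l = k ∧ g = 0 then ρ else 1) u k = u k 0 ^ ρ * u k 1 := by
    intro u
    simp [nm, Fin.prod_univ_two, hjk.symm]
  have sY : ∀ u ∈ S, |(p : ℝ) * Real.log (u j 0) - s j 0| ≤ E := fun u hu => by
    simpa using h.size u hu j 0
  have sw : ∀ u ∈ S, |(1 : ℝ) * Real.log (u k 1) - s k 1| ≤ E := fun u hu => by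
    simpa using h.size u hu k 1
  have heq : ∀ u ∈ S, e j * ((u j 0 ^ p * u j 1 : ℕ) : ℤ) + e l * ((u l 0 * u l 1 : ℕ) : ℤ)
      + e k * ((u k 0 ^ ρ * u k 1 : ℕ) : ℤ) = 0 := fun u hu => by
    have h1 := h.eqn u hu
    rwa [sum_three hjl hjk hlk, nj, nl, nk] at h1
  set Ym : ℝ := Real.exp ((s j 0 + E) / p) with hYm
  have hY : ∀ u ∈ S, (u j 0 : ℝ) ≤ Ym := fun u hu => le_exp_of (h.pos u hu j 0) hp0 (sY u hu)
  have hrange : ∀ u ∈ S, ∀ v ∈ S, u l 0 = v l 0 → u l 1 = v l 1 → u j 1 = v j 1 →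
      |(u j 0 : ℝ) - v j 0| ≤ Ym * Real.exp (s k 0 + s k 1 - L + 4 * E) := by
    intro u hu v hv e1 e2 e3
    have p1 : (0 : ℝ) < u j 0 := by exact_mod_cast h.pos u hu j 0
    have p3 : (0 : ℝ) < v j 0 := by exact_mod_cast h.pos v hv j 0
    by_cases hk : k = 0
    · have hj0 : j ≠ 0 := hk ▸ hjk
      have a1 := heq u hu
      have a2 := heq v hv
      rw [← e1, ← e2, ← e3] at a2
      have a3 := nm_le h hu k
      have a4 := nm_le h hv k
      have a5 := le_nm h hu j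
      rw [nk] at a3 a4
      rw [nj, sum_eq h hj0] at a5
      have a6 : |((u j 0 ^ p * u j 1 : ℕ) : ℤ) - ((v j 0 ^ p * u j 1 : ℕ) : ℤ)| ≤
          max ((u k 0 ^ ρ * u k 1 : ℕ) : ℤ) ((v k 0 ^ ρ * v k 1 : ℕ) : ℤ) := by
        generalize u j 0 ^ p * u j 1 = x1 at a1 ⊢
        generalize v j 0 ^ p * u j 1 = x2 at a2 ⊢
        generalize u k 0 ^ ρ * u k 1 = y1 at a1 ⊢
        generalize v k 0 ^ ρ * v k 1 = y2 at a2 ⊢
        generalize e l * ((u l 0 * u l 1 : ℕ) : ℤ) = c at a1 a2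
        rw [abs_le]
        rcases h.he j with b1 | b1 <;> rcases h.he k with b2 | b2 <;> rw [b1, b2] at a1 a2 <;>
          constructor <;> omega
      have a7 : |((u j 0 ^ p * u j 1 : ℕ) : ℝ) - ((v j 0 ^ p * u j 1 : ℕ) : ℝ)| ≤
          max ((u k 0 ^ ρ * u k 1 : ℕ) : ℝ) ((v k 0 ^ ρ * v k 1 : ℕ) : ℝ) := by exact_mod_cast a6
      have a8 := a7.trans (max_le a3 a4)
      have q1 : (0 : ℝ) < u j 1 := by exact_mod_cast h.pos u hu j 1
      have a9 := mul_le_mul_of_nonneg_right (pow_range p1.le p3.le (hY u hu) (hY v hv) hp1) q1.le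
      push_cast at a5 a8
      rw [← sub_mul, abs_mul, abs_of_pos q1] at a8
      have b1 : |(u j 0 : ℝ) - v j 0| * Real.exp (L - 2 * E) ≤
          Ym * Real.exp (s k 0 + s k 1 + 2 * E) := by
        calc |(u j 0 : ℝ) - v j 0| * Real.exp (L - 2 * E)
            ≤ |(u j 0 : ℝ) - v j 0| * ((u j 0 : ℝ) ^ p * u j 1) :=
              mul_le_mul_of_nonneg_left a5 (abs_nonneg _)
          _ ≤ Ym * (|(u j 0 : ℝ) ^ p - (v j 0 : ℝ) ^ p| * u j 1) := by linarith
          _ ≤ _ := mul_le_mul_of_nonneg_left a8 (Real.exp_pos _).le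
      rw [← le_div_iff₀ (Real.exp_pos _), mul_div_assoc, ← Real.exp_sub] at b1
      refine b1.trans (le_of_eq ?_)
      congr 2
      ring
    · have a1 := sum_eq h hk
      have a2 : (1 : ℝ) ≤ Real.exp (s k 0 + s k 1 - L + 4 * E) :=
        Real.one_le_exp (by linarith)
      have a3 := hY u hu
      have a4 := hY v hv
      have a7 : Ym ≤ Ym * Real.exp (s k 0 + s k 1 - L + 4 * E) :=
        le_mul_of_one_le_right (Real.exp_pos _).le a2
      rw [abs_le]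
      constructor <;> linarith
  set V : ℝ := s j 0 / p + s k 0 - L with hV
  set T : ℝ := Real.exp (max 0 V + 6 * E) with hTdef
  have hT1 : 1 ≤ T := Real.one_le_exp (by linarith [le_max_left 0 V])
  have hTρ : T ^ ((1 : ℝ) / ρ) ≤ Real.exp (max 0 V / ρ + 6 * E) := by
    rw [hTdef, ← Real.exp_mul]
    refine Real.exp_le_exp.2 ?_
    have a1 : 6 * E / ρ ≤ 6 * E := div_le_self (by linarith) (by linarith)
    have a2 : (max 0 V + 6 * E) * (1 / ρ) = max 0 V / ρ + 6 * E / ρ := by ring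
    linarith
  set W := (S.image fun u => u l 0) ×ˢ (S.image fun u => u l 1) ×ˢ (S.image fun u => u j 1) ×ˢ
    (S.image fun u => u k 1) with hW
  have hWc : (W.card : ℝ) ≤ Real.exp (r l 0 + E) * (Real.exp (r l 1 + E) *
      (Real.exp (r j 1 + E) * Real.exp (r k 1 + E))) := by
    rw [hW, card_product, card_product, card_product]
    push_cast
    exact mul_le_mul (h.card l 0) (mul_le_mul (h.card l 1) (mul_le_mul (h.card j 1) (h.card k 1)
      (by positivity) (by positivity)) (by positivity) (by positivity)) (by positivity)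
      (by positivity)
  have hmain := card_le_cover S W
    (fun u t => u l 0 = t.1 ∧ u l 1 = t.2.1 ∧ u j 1 = t.2.2.1 ∧ u k 1 = t.2.2.2)
    (fun u hu => ⟨(u l 0, u l 1, u j 1, u k 1), by
      simp only [hW, mem_product]
      exact ⟨mem_image_of_mem _ hu, mem_image_of_mem _ hu, mem_image_of_mem _ hu,
        mem_image_of_mem _ hu⟩, rfl, rfl, rfl, rfl⟩)
    (Real.exp E * Real.exp (max 0 V / ρ + 6 * E) * Real.exp (4 * E)) ?_
  · refine hmain.trans ((mul_le_mul_of_nonneg_left hWc (by positivity)).trans ?_)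
    simp only [← Real.exp_add]
    refine Real.exp_le_exp.2 ?_
    rw [bB, sum_three hjl hjk hlk, sum_three hjl hjk hlk]
    simp only [or_true, true_or, if_true, hlk, hjl.symm, or_self, if_false]
    linarith
  rintro ⟨A0, A1, B, w⟩ _
  rcases (S.filter fun u => u l 0 = A0 ∧ u l 1 = A1 ∧ u j 1 = B ∧ u k 1 = w).eq_empty_or_nonempty
    with h0 | ⟨u0, hu1⟩
  · simp only [h0, card_empty, Nat.cast_zero]
    positivity
  obtain ⟨hu0, rfl, rfl, rfl, rfl⟩ := mem_filter.1 hu1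
  have hw : 0 < u0 k 1 := h.pos u0 hu0 k 1
  have hwc : u0 k 1 ≤ cap := by
    have a1 := h.le_cap u0 hu0 k
    rw [nk] at a1
    exact (Nat.le_mul_of_pos_left _ (pow_pos (h.pos u0 hu0 k 0) _)).trans a1
  have hc := bcore hR (S.filter fun u => u l 0 = u0 l 0 ∧ u l 1 = u0 l 1 ∧ u j 1 = u0 j 1 ∧
    u k 1 = u0 k 1) p ρ hp1 hp6 hρ2 hρ6 (fun u => u j 0) (fun u => u k 0) (u0 l 0 * u0 l 1)
    (u0 j 1) (u0 k 1) cap (e j) (e l) (e k) (h.he j) (h.he l) (h.he k)
    (mul_pos (h.pos u0 hu0 l 0) (h.pos u0 hu0 l 1)) (h.pos u0 hu0 j 1) hw hwc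
    (fun u hu => h.pos u (mem_filter.1 hu).1 k 0) ?_ ?_ ?_ ?_ (Real.exp E) T (Real.exp_pos _).le
    hT1 h.det ?_
  · exact hc.trans (mul_le_mul (mul_le_mul_of_nonneg_left hTρ (Real.exp_pos _).le)
      (div_le h hw hwc) (by positivity) (by positivity))
  · intro u hu
    have hu' := (mem_filter.1 hu).1
    have a1 := h.le_cap u hu' k
    rw [nk] at a1
    exact ((Nat.le_self_pow (by omega) _).trans
      (Nat.le_mul_of_pos_right _ (h.pos u hu' k 1))).trans a1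
  · intro u hu
    obtain ⟨hu', e1, e2, e3, e4⟩ := mem_filter.1 hu
    rw [← e1, ← e2, ← e3, ← e4]
    exact heq u hu'
  · intro u hu
    obtain ⟨hu', -, -, e3, e4⟩ := mem_filter.1 hu
    have a1 := h.cop u hu' j k hjk
    rwa [nj, nk, e3, e4] at a1
  · intro u hu v hv a1 a2
    obtain ⟨-, b1, b2, b3, b4⟩ := mem_filter.1 hu
    obtain ⟨-, c1, c2, c3, c4⟩ := mem_filter.1 hv
    exact ext_three hjl hjk hlk a1 (b3.trans c3.symm) (b1.trans c1.symm) (b2.trans c2.symm) a2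
      (b4.trans c4.symm)
  · intro u hu v hv
    obtain ⟨hu, b1, b2, b3, -⟩ := mem_filter.1 hu
    obtain ⟨hv, c1, c2, c3, -⟩ := mem_filter.1 hv
    refine (hrange u hu v hv (b1.trans c1.symm) (b2.trans c2.symm) (b3.trans c3.symm)).trans ?_
    have a1 := exp_le_of hw one_pos (sw u0 hu0)
    refine le_trans ?_ (mul_le_mul_of_nonneg_left a1 (Real.exp_pos _).le)
    rw [hYm, ← Real.exp_add, ← Real.exp_add]
    refine Real.exp_le_exp.2 ?_
    have a2 : E / p ≤ E := div_le_self (by linarith) hp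
    have a3 := le_max_right 0 V
    have a4 : (s j 0 + E) / p = s j 0 / p + E / p := by ring
    rw [div_one]
    linarith

end Pool.Agent.MP_542436_nt.H61
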