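import Pool.Agent.MP_542436_nt.Abc.Defs

set_option autoImplicit false

namespace Pool.Agent.MP_542436_nt.H61

open Finset Pool.Agent.MP_542436_nt.Abc

theorem card_le_cover {α β : Type} (S : Finset α) (Z : Finset β) (R : α → β → Prop)
    [∀ a z, Decidable (R a z)] (hcov : ∀ a ∈ S, ∃ z ∈ Z, R a z) (M : ℝ)
    (h : ∀ z ∈ Z, ((S.filter (fun a => R a z)).card : ℝ) ≤ M) : (S.card : ℝ) ≤ M * Z.card := by
  classical
  have h1 : S ⊆ Z.biUnion (fun z => S.filter (fun a => R a z)) := by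
    intro a ha
    obtain ⟨z, hz, hr⟩ := hcov a ha
    exact mem_biUnion.2 ⟨z, hz, mem_filter.2 ⟨ha, hr⟩⟩
  have h2 : S.card ≤ ∑ z ∈ Z, (S.filter (fun a => R a z)).card :=
    (card_le_card h1).trans card_biUnion_le
  calc (S.card : ℝ) ≤ ∑ z ∈ Z, ((S.filter (fun a => R a z)).card : ℝ) := by exact_mod_cast h2
    _ ≤ ∑ _z ∈ Z, M := sum_le_sum h
    _ = M * Z.card := by rw [sum_const, nsmul_eq_mul, mul_comm]

theorem spacing {α : Type} (P : Finset α) (f : α → ℝ) (d R : ℝ) (hd : 0 < d) (hR0 : 0 ≤ R)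
    (hsep : ∀ a ∈ P, ∀ b ∈ P, a ≠ b → d ≤ |f a - f b|)
    (hR : ∀ a ∈ P, ∀ b ∈ P, |f a - f b| ≤ R) : (P.card : ℝ) ≤ 1 + R / d := by
  rcases P.eq_empty_or_nonempty with rfl | hne
  · simp only [card_empty, Nat.cast_zero]
    positivity
  obtain ⟨m, hm, hmin⟩ := P.exists_min_image f hne
  have hnn : ∀ a ∈ P, 0 ≤ (f a - f m) / d := fun a ha =>
    div_nonneg (sub_nonneg.2 (hmin a ha)) hd.le
  have h1 : P.card ≤ (range (⌊R / d⌋₊ + 1)).card := by
    refine card_le_card_of_injOn (fun a => ⌊(f a - f m) / d⌋₊) ?_ ?_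
    · intro a ha
      have ha' : a ∈ P := ha
      simp only [coe_range, Set.mem_Iio, Nat.lt_succ_iff]
      refine Nat.floor_mono ?_
      exact div_le_div_of_nonneg_right ((le_abs_self _).trans (hR a ha' m hm)) hd.le
    · intro a ha b hb hab
      have ha' : a ∈ P := ha
      have hb' : b ∈ P := hb
      by_contra hne'
      have hs := hsep a ha' b hb' hne'
      have h2 := (Nat.floor_eq_iff (hnn a ha')).1 hab
      have h3 := (Nat.floor_eq_iff (hnn b hb')).1 rfl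
      have h4 : |(f a - f m) / d - (f b - f m) / d| < 1 := by
        rw [abs_lt]
        constructor <;> linarith [h2.1, h2.2, h3.1, h3.2]
      rw [← sub_div, abs_div, abs_of_pos hd, div_lt_one hd,
        show f a - f m - (f b - f m) = f a - f b by ring] at h4
      linarith
  rw [card_range] at h1
  have h2 : ((⌊R / d⌋₊ : ℕ) : ℝ) ≤ R / d := Nat.floor_le (by positivity)
  have h3 : (P.card : ℝ) ≤ (⌊R / d⌋₊ : ℕ) + 1 := by exact_mod_cast h1
  linarith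

theorem pow_aux {x y : ℝ} (hy : 0 ≤ y) (hxy : y ≤ x) (q : ℕ) :
    (x - y) * x ^ (q + 1) ≤ x * (x ^ (q + 1) - y ^ (q + 1)) := by
  have hx : 0 ≤ x := hy.trans hxy
  have h1 : y ^ q ≤ x ^ q := pow_le_pow_left₀ hy hxy q
  have h2 : x * y * y ^ q ≤ x * y * x ^ q := mul_le_mul_of_nonneg_left h1 (mul_nonneg hx hy)
  rw [pow_succ, pow_succ]
  nlinarith

theorem pow_range {x y m : ℝ} (hx : 0 ≤ x) (hy : 0 ≤ y) (hxm : x ≤ m) (hym : y ≤ m) {p : ℕ}
    (hp : 1 ≤ p) : |x - y| * x ^ p ≤ m * |x ^ p - y ^ p| := by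
  obtain ⟨q, rfl⟩ : ∃ q, p = q + 1 := ⟨p - 1, by omega⟩
  rcases le_total y x with h | h
  · have h1 : y ^ (q + 1) ≤ x ^ (q + 1) := pow_le_pow_left₀ hy h _
    rw [abs_of_nonneg (sub_nonneg.2 h), abs_of_nonneg (sub_nonneg.2 h1)]
    exact (pow_aux hy h q).trans (mul_le_mul_of_nonneg_right hxm (sub_nonneg.2 h1))
  · have h1 : x ^ (q + 1) ≤ y ^ (q + 1) := pow_le_pow_left₀ hx h _
    rw [abs_sub_comm, abs_sub_comm (x ^ (q + 1)), abs_of_nonneg (sub_nonneg.2 h),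
      abs_of_nonneg (sub_nonneg.2 h1)]
    calc (y - x) * x ^ (q + 1) ≤ (y - x) * y ^ (q + 1) :=
          mul_le_mul_of_nonneg_left h1 (sub_nonneg.2 h)
      _ ≤ y * (y ^ (q + 1) - x ^ (q + 1)) := pow_aux hx h q
      _ ≤ _ := mul_le_mul_of_nonneg_right hym (sub_nonneg.2 h1)

theorem sum_three {M : Type} [AddCommMonoid M] {j l k : Fin 3} (hjl : j ≠ l) (hjk : j ≠ k)
    (hlk : l ≠ k) (f : Fin 3 → M) : ∑ i, f i = f j + f l + f k := by
  rw [Fin.sum_univ_three]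
  fin_cases j <;> fin_cases l <;> fin_cases k <;> simp at hjl hjk hlk ⊢ <;> abel

theorem all_three {j l k : Fin 3} (hjl : j ≠ l) (hjk : j ≠ k) (hlk : l ≠ k) (i : Fin 3) :
    i = j ∨ i = l ∨ i = k := by
  revert i j l k
  decide

theorem ext_three {j l k : Fin 3} (hjl : j ≠ l) (hjk : j ≠ k) (hlk : l ≠ k)
    {u v : Fin 3 → Fin 2 → ℕ} (h1 : u j 0 = v j 0) (h2 : u j 1 = v j 1) (h3 : u l 0 = v l 0)
    (h4 : u l 1 = v l 1) (h5 : u k 0 = v k 0) (h6 : u k 1 = v k 1) : u = v := by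
  funext i g
  rcases all_three hjl hjk hlk i with rfl | rfl | rfl <;> fin_cases g <;> assumption

theorem le_exp_of {n : ℕ} (hn : 0 < n) {c s E : ℝ} (hc : 0 < c)
    (h : |c * Real.log n - s| ≤ E) : (n : ℝ) ≤ Real.exp ((s + E) / c) := by
  have h0 : (0 : ℝ) < n := by exact_mod_cast hn
  rw [← Real.log_le_iff_le_exp h0, le_div_iff₀ hc]
  linarith [(abs_le.1 h).2]

theorem exp_le_of {n : ℕ} (hn : 0 < n) {c s E : ℝ} (hc : 0 < c)
    (h : |c * Real.log n - s| ≤ E) : Real.exp ((s - E) / c) ≤ n := by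
  have h0 : (0 : ℝ) < n := by exact_mod_cast hn
  rw [← Real.le_log_iff_exp_le h0, div_le_iff₀ hc]
  linarith [(abs_le.1 h).1]

section

variable {ex : Fin 3 → Fin 2 → ℕ} {S : Finset (Fin 3 → Fin 2 → ℕ)} {e : Fin 3 → ℤ}
  {r s : Fin 3 → Fin 2 → ℝ} {L E : ℝ} {cap : ℕ}

theorem nm_pos (h : Good ex S e r s L E cap) {u : Fin 3 → Fin 2 → ℕ} (hu : u ∈ S) (j : Fin 3) :
    0 < nm ex u j := prod_pos fun i _ => pow_pos (h.pos u hu j i) _

theorem log_nm (h : Good ex S e r s L E cap) {u : Fin 3 → Fin 2 → ℕ} (hu : u ∈ S) (j : Fin 3) :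
    |1 * Real.log (nm ex u j) - (s j 0 + s j 1)| ≤ 2 * E := by
  have h0 : (0 : ℝ) < u j 0 := by exact_mod_cast h.pos u hu j 0
  have h1 : (0 : ℝ) < u j 1 := by exact_mod_cast h.pos u hu j 1
  have h2 := abs_le.1 (h.size u hu j 0)
  have h3 := abs_le.1 (h.size u hu j 1)
  have h4 : Real.log (nm ex u j) =
      ex j 0 * Real.log (u j 0) + ex j 1 * Real.log (u j 1) := by
    rw [nm, Fin.prod_univ_two]
    push_cast
    rw [Real.log_mul (pow_pos h0 _).ne' (pow_pos h1 _).ne', Real.log_pow, Real.log_pow]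
  rw [h4, abs_le]
  constructor <;> linarith [h2.1, h2.2, h3.1, h3.2]

theorem nm_le (h : Good ex S e r s L E cap) {u : Fin 3 → Fin 2 → ℕ} (hu : u ∈ S) (j : Fin 3) :
    (nm ex u j : ℝ) ≤ Real.exp (s j 0 + s j 1 + 2 * E) := by
  simpa using le_exp_of (nm_pos h hu j) one_pos (log_nm h hu j)

theorem le_nm (h : Good ex S e r s L E cap) {u : Fin 3 → Fin 2 → ℕ} (hu : u ∈ S) (j : Fin 3) :
    Real.exp (s j 0 + s j 1 - 2 * E) ≤ nm ex u j := by
  simpa using exp_le_of (nm_pos h hu j) one_pos (log_nm h hu j)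

theorem sum_eq (h : Good ex S e r s L E cap) {j : Fin 3} (hj : j ≠ 0) : s j 0 + s j 1 = L := by
  have h1 := h.s1
  have h2 := h.s2
  rw [Fin.sum_univ_two] at h1 h2
  fin_cases j
  · exact absurd rfl hj
  · exact h1
  · exact h2

theorem div_le (h : Good ex S e r s L E cap) {w : ℕ} (hw : 0 < w) (hc : w ≤ cap) :
    ((w.divisors.card ^ 4 : ℕ) : ℝ) ≤ Real.exp (4 * E) := by
  have h1 : w ≤ cap ^ 4 := hc.trans (Nat.le_self_pow (by norm_num) cap)
  have h2 := h.div w h1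
  rw [show 4 * E = (4 : ℕ) * E by norm_num, Real.exp_nat_mul]
  push_cast
  exact pow_le_pow_left₀ (by positivity) h2 4

end

theorem cop_sign {e : ℤ} (he : e = 1 ∨ e = -1) {a w : ℕ} (h : Nat.Coprime a w) :
    IsCoprime (e * a) (w : ℤ) := by
  have h1 : IsCoprime (a : ℤ) (w : ℤ) := Nat.isCoprime_iff_coprime.2 h
  rcases he with rfl | rfl
  · simpa using h1
  · simpa using h1.neg_left

end Pool.Agent.MP_542436_nt.H61
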