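import Pool.Agent.MP_542436_nt.H61.Base

set_option autoImplicit false

namespace Pool.Agent.MP_542436_nt.H61

open Finset Pool.Agent.MP_542436_nt.Abc

theorem hcore (hR : RootStmt) {ι : Type} (S : Finset ι) (p : ℕ) (hp1 : 1 ≤ p) (hp6 : p ≤ 6)
    (X Y F : ι → ℕ) (A B w : ℕ) (ej el ek : ℤ) (hej : ej = 1 ∨ ej = -1) (hek : ek = 1 ∨ ek = -1)
    (hw : 0 < w) (hY0 : ∀ u ∈ S, 0 < Y u)
    (heq : ∀ u ∈ S, ej * ((X u ^ p * A : ℕ) : ℤ) + el * ((Y u ^ p * B : ℕ) : ℤ)
      + ek * ((F u * w : ℕ) : ℤ) = 0)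
    (c1 : ∀ u ∈ S, Nat.Coprime (X u ^ p * A) (Y u ^ p * B))
    (c2 : ∀ u ∈ S, Nat.Coprime (X u ^ p * A) (F u * w))
    (c3 : ∀ u ∈ S, Nat.Coprime (Y u ^ p * B) (F u * w))
    (hinj : ∀ u ∈ S, ∀ v ∈ S, X u = X v → Y u = Y v → F u = F v → u = v)
    (Ym R d : ℝ) (hd : 0 < d) (hR0 : 0 ≤ R) (hdw : d * Ym ^ 2 ≤ w) (hY : ∀ u ∈ S, (Y u : ℝ) ≤ Ym)
    (hrange : ∀ u ∈ S, ∀ v ∈ S, |(X u : ℝ) / Y u - (X v : ℝ) / Y v| ≤ R) :
    (S.card : ℝ) ≤ (1 + R / d) * ((w.divisors.card ^ 4 : ℕ) : ℝ) := by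
  classical
  rcases S.eq_empty_or_nonempty with rfl | ⟨u0, hu0⟩
  · simp only [card_empty, Nat.cast_zero]
    positivity
  have hp0 : p ≠ 0 := by omega
  have dX : ∀ u, X u ∣ X u ^ p * A := fun u => (dvd_pow_self _ hp0).mul_right _
  have dY : ∀ u, Y u ∣ Y u ^ p * B := fun u => (dvd_pow_self _ hp0).mul_right _
  have dw : ∀ u, w ∣ F u * w := fun u => Dvd.intro_left _ rfl
  have hA : Nat.Coprime A w :=
    Nat.Coprime.coprime_dvd_left (Dvd.intro_left _ rfl) ((c2 u0 hu0).coprime_dvd_right (dw u0))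
  obtain ⟨Z, hZ, hZc⟩ := hR w p (ej * A) (-(el * B)) hw hp1 hp6 (cop_sign hej hA)
  have hcov : ∀ u ∈ S, ∃ z ∈ Z, (w : ℤ) ∣ (X u : ℤ) - z * Y u := by
    intro u hu
    refine hZc _ _ (Nat.isCoprime_iff_coprime.2 ?_) (Nat.isCoprime_iff_coprime.2 ?_) ?_
    · exact Nat.Coprime.coprime_dvd_left (dX u) ((c2 u hu).coprime_dvd_right (dw u))
    · exact Nat.Coprime.coprime_dvd_left (dY u) ((c3 u hu).coprime_dvd_right (dw u))
    · have h := heq u hu
      push_cast at h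
      exact ⟨-(ek * F u), by linear_combination h⟩
  have hmain := card_le_cover S Z (fun u z => (w : ℤ) ∣ (X u : ℤ) - z * Y u) hcov (1 + R / d) ?_
  · refine hmain.trans (mul_le_mul_of_nonneg_left ?_ (by positivity))
    exact_mod_cast hZ
  intro z _
  refine spacing _ (fun u => (X u : ℝ) / Y u) d R hd hR0 ?_ ?_
  · intro u hu v hv huv
    obtain ⟨hu, hzu⟩ := mem_filter.1 hu
    obtain ⟨hv, hzv⟩ := mem_filter.1 hv
    have hdvd : (w : ℤ) ∣ (X u : ℤ) * Y v - X v * Y u := by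
      have h := (hzu.mul_right (Y v : ℤ)).sub (hzv.mul_right (Y u : ℤ))
      rwa [show ((X u : ℤ) - z * Y u) * Y v - (X v - z * Y v) * Y u = X u * Y v - X v * Y u by
        ring] at h
    have hne : (X u : ℤ) * Y v - X v * Y u ≠ 0 := by
      intro h0
      have h1 : X u * Y v = X v * Y u := by exact_mod_cast sub_eq_zero.1 h0
      have cu : Nat.Coprime (X u) (Y u) :=
        Nat.Coprime.coprime_dvd_left (dX u) ((c1 u hu).coprime_dvd_right (dY u))
      have cv : Nat.Coprime (X v) (Y v) :=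
        Nat.Coprime.coprime_dvd_left (dX v) ((c1 v hv).coprime_dvd_right (dY v))
      have d1 : Y u ∣ Y v := cu.symm.dvd_of_dvd_mul_left ⟨X v, by rw [h1, mul_comm]⟩
      have d2 : Y v ∣ Y u := cv.symm.dvd_of_dvd_mul_left ⟨X u, by rw [← h1, mul_comm]⟩
      have eY : Y u = Y v := Nat.dvd_antisymm d1 d2
      have eX : X u = X v := by
        rw [eY] at h1
        exact Nat.eq_of_mul_eq_mul_right (hY0 v hv) h1
      have eF : F u = F v := by
        have h2 := heq u hu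
        have h3 := heq v hv
        rw [eX, eY] at h2
        have h4 : ek * ((F u * w : ℕ) : ℤ) = ek * ((F v * w : ℕ) : ℤ) := by linarith
        have hek0 : ek ≠ 0 := by rcases hek with rfl | rfl <;> norm_num
        have h5 : F u * w = F v * w := by exact_mod_cast mul_left_cancel₀ hek0 h4
        exact Nat.eq_of_mul_eq_mul_right hw h5
      exact huv (hinj u hu v hv eX eY eF)
    have hle : (w : ℤ) ≤ |(X u : ℤ) * Y v - X v * Y u| :=
      Int.le_of_dvd (abs_pos.2 hne) ((dvd_abs _ _).2 hdvd)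
    have hle' : (w : ℝ) ≤ |(X u : ℝ) * Y v - X v * Y u| := by exact_mod_cast hle
    have hu0' : (0 : ℝ) < Y u := by exact_mod_cast hY0 u hu
    have hv0' : (0 : ℝ) < Y v := by exact_mod_cast hY0 v hv
    have e1 : (X u : ℝ) / Y u - (X v : ℝ) / Y v = (X u * Y v - X v * Y u) / (Y u * Y v) := by
      field_simp
    show d ≤ |(X u : ℝ) / Y u - (X v : ℝ) / Y v|
    rw [e1, abs_div, abs_of_pos (mul_pos hu0' hv0'), le_div_iff₀ (mul_pos hu0' hv0')]
    have h6 : (Y u : ℝ) * Y v ≤ Ym ^ 2 := by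
      rw [sq]
      exact mul_le_mul (hY u hu) (hY v hv) hv0'.le (hu0'.le.trans (hY u hu))
    nlinarith
  · intro u hu v hv
    exact hrange u (mem_filter.1 hu).1 v (mem_filter.1 hv).1

theorem abs_sub_le_of {ej el ek : ℤ} (hej : ej = 1 ∨ ej = -1) (hel : el = 1 ∨ el = -1)
    (hek : ek = 1 ∨ ek = -1) {a b c : ℕ} (h : ej * (a : ℤ) + el * b + ek * c = 0) :
    |(a : ℝ) - b| ≤ c := by
  have h1 : |(a : ℤ) - b| ≤ c := by
    rw [abs_le]
    rcases hej with rfl | rfl <;> rcases hel with rfl | rfl <;> rcases hek with rfl | rfl <;>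
      constructor <;> omega
  exact_mod_cast h1

theorem slope_range {x y x' y' A B c c' m lo hi K : ℝ} {p : ℕ} (hp : 1 ≤ p) (hx : 0 < x)
    (hy : 0 < y) (hx' : 0 < x') (hy' : 0 < y') (hA : 0 < A) (hB : 0 < B) (hlo : 0 < lo)
    (hm : x / y ≤ m) (hm' : x' / y' ≤ m)
    (h1 : |x ^ p * A - y ^ p * B| ≤ c) (h2 : |x' ^ p * A - y' ^ p * B| ≤ c')
    (hc : c ≤ K) (hc' : c' ≤ K) (l1 : lo ≤ x ^ p * A) (l2 : lo ≤ y ^ p * B)
    (l3 : lo ≤ y' ^ p * B) (l4 : y ^ p * B ≤ hi) :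
    |x / y - x' / y'| ≤ m * (2 * K * hi / lo ^ 2) := by
  have hr := pow_range (div_pos hx hy).le (div_pos hx' hy').le hm hm' hp
  have hm0 : 0 ≤ m := (div_pos hx hy).le.trans hm
  have hK : 0 ≤ K := (abs_nonneg _).trans (h1.trans hc)
  have hyp : 0 < y ^ p * B := by positivity
  have hyp' : 0 < y' ^ p * B := by positivity
  have b1 : |(x / y) ^ p - B / A| ≤ B / A * (K / lo) := by
    have e : (x / y) ^ p - B / A = B / A * ((x ^ p * A - y ^ p * B) / (y ^ p * B)) := by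
      rw [div_pow]
      field_simp
    rw [e, abs_mul, abs_of_pos (div_pos hB hA), abs_div, abs_of_pos hyp]
    gcongr
    exact h1.trans hc
  have b2 : |(x' / y') ^ p - B / A| ≤ B / A * (K / lo) := by
    have e : (x' / y') ^ p - B / A = B / A * ((x' ^ p * A - y' ^ p * B) / (y' ^ p * B)) := by
      rw [div_pow]
      field_simp
    rw [e, abs_mul, abs_of_pos (div_pos hB hA), abs_div, abs_of_pos hyp']
    gcongr
    exact h2.trans hc'
  have b3 : |(x / y) ^ p - (x' / y') ^ p| ≤ 2 * (B / A * (K / lo)) := by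
    have := abs_sub_le ((x / y) ^ p) (B / A) ((x' / y') ^ p)
    rw [abs_sub_comm (B / A)] at this
    linarith
  have hhi : 0 < hi := hyp.trans_le l4
  have b4 : B / A * (lo / hi) ≤ (x / y) ^ p := by
    have e : (x / y) ^ p = B / A * ((x ^ p * A) / (y ^ p * B)) := by
      rw [div_pow]
      field_simp
    rw [e]
    gcongr
  have b5 : |x / y - x' / y'| * (B / A * (lo / hi)) ≤ m * (2 * (B / A * (K / lo))) :=
    (mul_le_mul_of_nonneg_left b4 (abs_nonneg _)).trans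
      (hr.trans (mul_le_mul_of_nonneg_left b3 hm0))
  have hpos : 0 < B / A * (lo / hi) := by positivity
  rw [← le_div_iff₀ hpos] at b5
  refine b5.trans (le_of_eq ?_)
  field_simp

theorem hS (hR : RootStmt) : HStmt := by
  classical
  intro k p S e r s L E cap hp1 hp6 h
  obtain ⟨j, l, hjl, hjk, hlk⟩ : ∃ j l : Fin 3, j ≠ l ∧ j ≠ k ∧ l ≠ k :=
    (by decide : ∀ k : Fin 3, ∃ j l : Fin 3, j ≠ l ∧ j ≠ k ∧ l ≠ k) k
  have hE := h.hE
  have hp : (1 : ℝ) ≤ p := by exact_mod_cast hp1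
  have hp0 : (0 : ℝ) < p := by linarith
  have nj : ∀ u : Fin 3 → Fin 2 → ℕ,
      nm (fun j g => if j ≠ k ∧ g = 0 then p else 1) u j = u j 0 ^ p * u j 1 := by
    intro u
    simp [nm, Fin.prod_univ_two, hjk]
  have nl : ∀ u : Fin 3 → Fin 2 → ℕ,
      nm (fun j g => if j ≠ k ∧ g = 0 then p else 1) u l = u l 0 ^ p * u l 1 := by
    intro u
    simp [nm, Fin.prod_univ_two, hlk]
  have nk : ∀ u : Fin 3 → Fin 2 → ℕ,
      nm (fun j g => if j ≠ k ∧ g = 0 then p else 1) u k = u k 0 * u k 1 := by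
    intro u
    simp [nm, Fin.prod_univ_two]
  have sX : ∀ u ∈ S, |(p : ℝ) * Real.log (u j 0) - s j 0| ≤ E := fun u hu => by
    simpa [hjk] using h.size u hu j 0
  have sY : ∀ u ∈ S, |(p : ℝ) * Real.log (u l 0) - s l 0| ≤ E := fun u hu => by
    simpa [hlk] using h.size u hu l 0
  have sw : ∀ u ∈ S, |(1 : ℝ) * Real.log (u k 1) - s k 1| ≤ E := fun u hu => by
    simpa using h.size u hu k 1
  have heq : ∀ u ∈ S, e j * ((u j 0 ^ p * u j 1 : ℕ) : ℤ) + e l * ((u l 0 ^ p * u l 1 : ℕ) : ℤ)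
      + e k * ((u k 0 * u k 1 : ℕ) : ℤ) = 0 := fun u hu => by
    have h1 := h.eqn u hu
    rwa [sum_three hjl hjk hlk, nj, nl, nk] at h1
  set Ym : ℝ := Real.exp ((s l 0 + E) / p) with hYm
  set m : ℝ := Real.exp ((s j 0 + E) / p - (s l 0 - E) / p) with hm
  set R : ℝ := m * (2 * Real.exp (s k 0 + s k 1 - L + 8 * E)) with hRdef
  set d : ℝ := Real.exp (s k 1 - E - 2 * ((s l 0 + E) / p)) with hd
  have hslope : ∀ u ∈ S, (u j 0 : ℝ) / u l 0 ≤ m := fun u hu => by
    rw [hm, Real.exp_sub]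
    exact div_le_div₀ (Real.exp_pos _).le (le_exp_of (h.pos u hu j 0) hp0 (sX u hu))
      (Real.exp_pos _) (exp_le_of (h.pos u hu l 0) hp0 (sY u hu))
  have hrange : ∀ u ∈ S, ∀ v ∈ S, u j 1 = v j 1 → u l 1 = v l 1 →
      |(u j 0 : ℝ) / u l 0 - (v j 0 : ℝ) / v l 0| ≤ R := by
    intro u hu v hv e1 e2
    have p1 : (0 : ℝ) < u j 0 := by exact_mod_cast h.pos u hu j 0
    have p2 : (0 : ℝ) < u l 0 := by exact_mod_cast h.pos u hu l 0
    have p3 : (0 : ℝ) < v j 0 := by exact_mod_cast h.pos v hv j 0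
    have p4 : (0 : ℝ) < v l 0 := by exact_mod_cast h.pos v hv l 0
    by_cases hk : k = 0
    · have hj0 : j ≠ 0 := hk ▸ hjk
      have hl0 : l ≠ 0 := hk ▸ hlk
      have a1 := abs_sub_le_of (h.he j) (h.he l) (h.he k) (heq u hu)
      have a2 := abs_sub_le_of (h.he j) (h.he l) (h.he k) (heq v hv)
      have a3 := nm_le h hu k
      have a4 := nm_le h hv k
      have a5 := le_nm h hu j
      have a6 := le_nm h hu l
      have a7 := le_nm h hv l
      have a8 := nm_le h hu l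
      rw [nk] at a3 a4
      rw [nj, sum_eq h hj0] at a5
      rw [nl, sum_eq h hl0] at a6 a7 a8
      rw [← e1, ← e2] at a2
      rw [← e2] at a7
      push_cast at a1 a2 a3 a4 a5 a6 a7 a8
      have q1 : (0 : ℝ) < u j 1 := by exact_mod_cast h.pos u hu j 1
      have q2 : (0 : ℝ) < u l 1 := by exact_mod_cast h.pos u hu l 1
      refine (slope_range hp1 p1 p2 p3 p4 q1 q2 (Real.exp_pos _) (hslope u hu) (hslope v hv)
        a1 a2 a3 a4 a5 a6 a7 a8).trans (le_of_eq ?_)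
      rw [hRdef]
      congr 1
      rw [mul_assoc, mul_div_assoc, ← Real.exp_add, ← Real.exp_nat_mul, ← Real.exp_sub]
      congr 2
      push_cast
      ring
    · have a1 := sum_eq h hk
      have a2 : (1 : ℝ) ≤ Real.exp (s k 0 + s k 1 - L + 8 * E) :=
        Real.one_le_exp (by linarith)
      have a3 := hslope u hu
      have a4 := hslope v hv
      have a5 : 0 < (u j 0 : ℝ) / u l 0 := div_pos p1 p2
      have a6 : 0 < (v j 0 : ℝ) / v l 0 := div_pos p3 p4
      have a7 : m ≤ R := by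
        rw [hRdef]
        nlinarith [Real.exp_pos ((s j 0 + E) / p - (s l 0 - E) / p)]
      rw [abs_le]
      constructor <;> linarith
  have hR0 : 0 ≤ R := by positivity
  have hd0 : 0 < d := Real.exp_pos _
  set V : ℝ := oth k s 0 / p + s k 0 - L with hV
  have hRd : 1 + R / d ≤ Real.exp (max 0 V + 15 * E) := by
    have a1 : oth k s 0 = s j 0 + s l 0 := by
      rw [oth, sum_three hjl hjk hlk]
      simp [hjk, hlk]
    have a2 : E / p ≤ E := div_le_self (by linarith) hp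
    have a3 : R / d ≤ 2 * Real.exp (max 0 V + 13 * E) := by
      rw [hRdef, hm, hd, mul_left_comm, mul_div_assoc, ← Real.exp_add, ← Real.exp_sub]
      refine mul_le_mul_of_nonneg_left (Real.exp_le_exp.2 ?_) (by norm_num)
      have a4 := le_max_right 0 V
      have a5 : (s j 0 + E) / p - (s l 0 - E) / p + (s k 0 + s k 1 - L + 8 * E) -
          (s k 1 - E - 2 * ((s l 0 + E) / p)) = V + 9 * E + 4 * (E / p) := by
        rw [hV, a1]
        ring
      linarith
    have a4 : 1 ≤ Real.exp (max 0 V + 13 * E) :=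
      Real.one_le_exp (by linarith [le_max_left 0 V])
    have a5 : 3 ≤ Real.exp (2 * E) := by linarith [Real.add_one_le_exp (2 * E)]
    rw [show max 0 V + 15 * E = 2 * E + (max 0 V + 13 * E) by ring, Real.exp_add]
    nlinarith
  set T := (S.image fun u => u j 1) ×ˢ (S.image fun u => u l 1) ×ˢ (S.image fun u => u k 1)
    with hT
  have hTc : (T.card : ℝ) ≤ Real.exp (r j 1 + E) * (Real.exp (r l 1 + E) * Real.exp (r k 1 + E)) := by
    rw [hT, card_product, card_product]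
    push_cast
    exact mul_le_mul (h.card j 1) (mul_le_mul (h.card l 1) (h.card k 1) (by positivity)
      (by positivity)) (by positivity) (by positivity)
  have hmain := card_le_cover S T (fun u t => u j 1 = t.1 ∧ u l 1 = t.2.1 ∧ u k 1 = t.2.2)
    (fun u hu => ⟨(u j 1, u l 1, u k 1), by
      simp only [hT, mem_product]
      exact ⟨mem_image_of_mem _ hu, mem_image_of_mem _ hu, mem_image_of_mem _ hu⟩, rfl, rfl, rfl⟩)
    (Real.exp (max 0 V + 15 * E) * Real.exp (4 * E)) ?_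
  · refine hmain.trans ((mul_le_mul_of_nonneg_left hTc (by positivity)).trans ?_)
    simp only [← Real.exp_add]
    refine Real.exp_le_exp.2 ?_
    rw [hB, sum_three hjl hjk hlk]
    linarith
  rintro ⟨A, B, w⟩ ht
  simp only [hT, mem_product, mem_image] at ht
  obtain ⟨-, -, u0, hu0, rfl⟩ := ht
  have hw : 0 < u0 k 1 := h.pos u0 hu0 k 1
  have hwc : u0 k 1 ≤ cap := by
    have a1 := h.le_cap u0 hu0 k
    rw [nk] at a1
    exact (Nat.le_mul_of_pos_left _ (h.pos u0 hu0 k 0)).trans a1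
  have hc := hcore hR (S.filter fun u => u j 1 = A ∧ u l 1 = B ∧ u k 1 = u0 k 1) p hp1 hp6
    (fun u => u j 0) (fun u => u l 0) (fun u => u k 0) A B (u0 k 1) (e j) (e l) (e k) (h.he j)
    (h.he k) hw (fun u hu => h.pos u (mem_filter.1 hu).1 l 0) ?_ ?_ ?_ ?_ ?_ Ym R d hd0 hR0 ?_
    (fun u hu => le_exp_of (h.pos u (mem_filter.1 hu).1 l 0) hp0 (sY u (mem_filter.1 hu).1)) ?_
  · exact hc.trans (mul_le_mul hRd (div_le h hw hwc) (by positivity) (by positivity))
  · intro u hu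
    obtain ⟨hu', e1, e2, e3⟩ := mem_filter.1 hu
    rw [← e1, ← e2, ← e3]
    exact heq u hu'
  · intro u hu
    obtain ⟨hu', e1, e2, e3⟩ := mem_filter.1 hu
    have a1 := h.cop u hu' j l hjl
    rwa [nj, nl, e1, e2] at a1
  · intro u hu
    obtain ⟨hu', e1, e2, e3⟩ := mem_filter.1 hu
    have a1 := h.cop u hu' j k hjk
    rwa [nj, nk, e1, e3] at a1
  · intro u hu
    obtain ⟨hu', e1, e2, e3⟩ := mem_filter.1 hu
    have a1 := h.cop u hu' l k hlk
    rwa [nl, nk, e2, e3] at a1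
  · intro u hu v hv a1 a2 a3
    obtain ⟨-, b1, b2, b3⟩ := mem_filter.1 hu
    obtain ⟨-, c1, c2, c3⟩ := mem_filter.1 hv
    exact ext_three hjl hjk hlk a1 (b1.trans c1.symm) a2 (b2.trans c2.symm) a3 (b3.trans c3.symm)
  · have a1 := exp_le_of hw one_pos (sw u0 hu0)
    rw [hd, hYm, ← Real.exp_nat_mul, ← Real.exp_add]
    refine le_trans (le_of_eq ?_) a1
    congr 1
    push_cast
    ring
  · intro u hu v hv
    obtain ⟨hu, b1, b2, -⟩ := mem_filter.1 hu
    obtain ⟨hv, c1, c2, -⟩ := mem_filter.1 hv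
    exact hrange u hu v hv (b1.trans c1.symm) (b2.trans c2.symm)

end Pool.Agent.MP_542436_nt.H61
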